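import Pool.Agent.Lib.MP_5349a4_pr.M.Iface1
import Pool.Agent.Lib.MP_5349a4_pr.M.Base

/-!
Module COUNT (P9): number of points in a set.
-/

set_option autoImplicit false
open MeasureTheory Set
open scoped ENNReal NNReal

namespace Pool.Agent.Lib.MP_5349a4_pr.H7

open Pool.Agent.Lib.MP_5349a4_pr

theorem tsum_exp (a : ℝ≥0∞) (ha : a ≠ ∞) :
    ∑' j : ℕ, a ^ j / (j.factorial : ℝ≥0∞) = ENNReal.ofReal (Real.exp a.toReal) := by
  have h := NormedSpace.expSeries_div_hasSum_exp (𝔸 := ℝ) a.toReal
  rw [← Real.exp_eq_exp_ℝ] at h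
  rw [← h.tsum_eq, ENNReal.ofReal_tsum_of_nonneg (fun n => by positivity) h.summable]
  congr 1
  funext j
  rw [ENNReal.ofReal_div_of_pos (by positivity), ENNReal.ofReal_pow ENNReal.toReal_nonneg,
    ENNReal.ofReal_toReal ha, ENNReal.ofReal_natCast]

section

variable {E : Type} [MeasurableSpace E]

/-- the weight of the tuples of length `k` -/
noncomputable def wgh (a : ℝ≥0∞) (k : ℕ) : ℝ≥0∞ :=
  ENNReal.ofReal (Real.exp (-a.toReal)) / (k.factorial : ℝ≥0∞)

theorem PL_apply (σ : Measure E) {S : Set (Cfg E)} (hS : MeasurableSet S) :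
    PL σ S = ∑' k : ℕ, wgh (σ univ) k *
      (Measure.pi fun _ : Fin k => σ) {x | (⟨k, x⟩ : Cfg E) ∈ S} := by
  unfold PL
  rw [Measure.sum_apply _ hS]
  congr 1
  funext k
  rw [Measure.smul_apply, Measure.map_apply (measurable_mk k) hS, smul_eq_mul]
  rfl

omit [MeasurableSpace E] in
theorem ncard_iff {k n : ℕ} (x : Fin k → E) (A : Set E) :
    n ≤ (Set.range x ∩ A).ncard ↔
      ∃ g : Fin n → Fin k, (∀ i, x (g i) ∈ A) ∧ ∀ i j, i ≠ j → x (g i) ≠ x (g j) := by
  constructor
  · intro h
    have hfin : (Set.range x ∩ A).Finite := (Set.finite_range x).inter_of_left A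
    have : Fintype (Set.range x ∩ A : Set E) := hfin.fintype
    have h1 : Fintype.card (Fin n) ≤ Fintype.card (Set.range x ∩ A : Set E) := by
      rw [Fintype.card_fin, ← Nat.card_eq_fintype_card, Nat.card_coe_set_eq]
      exact h
    obtain ⟨e⟩ := Function.Embedding.nonempty_of_card_le h1
    choose g hg using fun i => (e i).2.1
    refine ⟨g, fun i => ?_, fun i j hij h2 => ?_⟩
    · rw [hg]; exact (e i).2.2
    · rw [hg, hg] at h2
      exact hij (e.injective (Subtype.ext h2))
  · rintro ⟨g, h1, h2⟩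
    have hinj : Function.Injective (fun i => x (g i)) := by
      intro i j hij
      by_contra hne
      exact h2 i j hne hij
    have h3 : Set.range (fun i => x (g i)) ⊆ Set.range x ∩ A := by
      rintro _ ⟨i, rfl⟩
      exact ⟨⟨g i, rfl⟩, h1 i⟩
    have h4 := Set.ncard_le_ncard h3 ((Set.finite_range x).inter_of_left A)
    rw [Set.ncard_range_of_injective hinj, Nat.card_eq_fintype_card, Fintype.card_fin] at h4
    exact h4

theorem meas_ge [StandardBorelSpace E] (n : ℕ) {A : Set E} (hA : MeasurableSet A) :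
    MeasurableSet {ω : Cfg E | n ≤ (pt ω ∩ A).ncard} := by
  rw [measurableSet_cfg]
  intro k
  have h1 : {x : Fin k → E | (⟨k, x⟩ : Cfg E) ∈ {ω : Cfg E | n ≤ (pt ω ∩ A).ncard}} =
      ⋃ g : Fin n → Fin k, ((⋂ i, {x | x (g i) ∈ A}) ∩
        ⋂ i, ⋂ j, {x | i ≠ j → x (g i) ≠ x (g j)}) := by
    ext x
    change n ≤ (Set.range x ∩ A).ncard ↔ _
    rw [ncard_iff]
    simp only [mem_iUnion, mem_inter_iff, mem_iInter, mem_ofPred_eq]
  rw [h1]
  refine MeasurableSet.iUnion fun g => MeasurableSet.inter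
    (MeasurableSet.iInter fun i => measurable_pi_apply (g i) hA)
    (MeasurableSet.iInter fun i => MeasurableSet.iInter fun j => ?_)
  by_cases hij : i = j
  · simp [hij]
  · have h2 : {x : Fin k → E | i ≠ j → x (g i) ≠ x (g j)} = {x | x (g i) = x (g j)}ᶜ := by
      ext x
      simp [hij]
    rw [h2]
    exact (measurableSet_eq_fun (measurable_pi_apply (g i)) (measurable_pi_apply (g j))).compl

theorem meas_eq [StandardBorelSpace E] (n : ℕ) {A : Set E} (hA : MeasurableSet A) :
    MeasurableSet {ω : Cfg E | (pt ω ∩ A).ncard = n} := by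
  have h1 : {ω : Cfg E | (pt ω ∩ A).ncard = n} =
      {ω : Cfg E | n ≤ (pt ω ∩ A).ncard} \ {ω : Cfg E | n + 1 ≤ (pt ω ∩ A).ncard} := by
    ext ω
    simp only [mem_ofPred_eq, mem_sdiff]
    omega
  rw [h1]
  exact (meas_ge n hA).diff (meas_ge (n + 1) hA)

theorem pi_univ' (σ : Measure E) [IsFiniteMeasure σ] (k : ℕ) :
    (Measure.pi fun _ : Fin k => σ) univ = (σ univ) ^ k := by
  rw [Measure.pi_univ, Finset.prod_const, Finset.card_univ, Fintype.card_fin]

theorem null_eq [StandardBorelSpace E] (σ : Measure E) [IsFiniteMeasure σ] [NullSingletonClass σ]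
    (k : ℕ) (i j : Fin k) (hij : i ≠ j) :
    (Measure.pi fun _ : Fin k => σ) {x | x i = x j} = 0 := by
  obtain ⟨k', rfl⟩ : ∃ k', k = k' + 1 := ⟨k - 1, by have := i.2; omega⟩
  obtain ⟨j', rfl⟩ := Fin.exists_succAbove_eq (Ne.symm hij)
  have hmp := measurePreserving_piFinSuccAbove (fun _ : Fin (k' + 1) => σ) i
  set T : Set (E × (Fin k' → E)) := {q | q.1 = q.2 j'} with hT
  have hTm : MeasurableSet T :=
    measurableSet_eq_fun measurable_fst ((measurable_pi_apply j').comp measurable_snd)
  have h1 : {x : Fin (k' + 1) → E | x i = x (i.succAbove j')} =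
      (MeasurableEquiv.piFinSuccAbove (fun _ => E) i) ⁻¹' T := by
    ext x
    rfl
  rw [h1, hmp.measure_preimage hTm.nullMeasurableSet, Measure.prod_apply_symm hTm]
  rw [lintegral_eq_zero_iff']
  · refine Filter.Eventually.of_forall fun y => ?_
    have h2 : (fun x : E => (x, y)) ⁻¹' T = {y j'} := by
      ext x
      rfl
    change σ ((fun x => (x, y)) ⁻¹' T) = 0
    rw [h2]
    exact measure_singleton _
  · exact (measurable_measure_prodMk_right hTm).aemeasurable

theorem null_inj [StandardBorelSpace E] (σ : Measure E) [IsFiniteMeasure σ] [NullSingletonClass σ]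
    (k : ℕ) : (Measure.pi fun _ : Fin k => σ) {x | ¬ Function.Injective x} = 0 := by
  have h1 : {x : Fin k → E | ¬ Function.Injective x} ⊆
      ⋃ i : Fin k, ⋃ j : Fin k, {x | i ≠ j ∧ x i = x j} := by
    intro x hx
    simp only [mem_ofPred_eq, Function.Injective, not_forall] at hx
    obtain ⟨i, j, h2, h3⟩ := hx
    simp only [mem_iUnion]
    exact ⟨i, j, h3, h2⟩
  refine measure_mono_null h1 ?_
  rw [measure_iUnion_null_iff]
  intro i
  rw [measure_iUnion_null_iff]
  intro j
  by_cases hij : i = j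
  · simp [hij]
  · refine measure_mono_null ?_ (null_eq σ k i j hij)
    intro x hx
    exact hx.2

theorem tail_bound (a : ℝ≥0∞) (ha : a ≠ ∞) (n : ℕ) :
    ∑' k : ℕ, (if n ≤ k then wgh a k * a ^ k else 0) ≤ a ^ n / (n.factorial : ℝ≥0∞) := by
  have hinj : Function.Injective (fun j : ℕ => n + j) := fun i j h => by simpa using h
  have h1 := hinj.tsum_eq (f := fun k : ℕ => if n ≤ k then wgh a k * a ^ k else 0) (by
    intro k hk
    rw [Function.mem_support] at hk
    by_cases h : n ≤ k
    · exact ⟨k - n, by simp only; omega⟩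
    · rw [if_neg h] at hk; exact absurd rfl hk)
  rw [← h1]
  have h2 : ∀ j : ℕ, (if n ≤ n + j then wgh a (n + j) * a ^ (n + j) else 0) ≤
      (a ^ n / (n.factorial : ℝ≥0∞)) * (ENNReal.ofReal (Real.exp (-a.toReal)) *
        (a ^ j / (j.factorial : ℝ≥0∞))) := by
    intro j
    rw [if_pos (Nat.le_add_right n j), wgh, pow_add]
    have h3 : ((n.factorial : ℝ≥0∞) * (j.factorial : ℝ≥0∞)) ≤ ((n + j).factorial : ℝ≥0∞) := by
      have h4 := Nat.le_of_dvd (Nat.factorial_pos _) (Nat.factorial_mul_factorial_dvd_factorial_add n j)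
      exact_mod_cast h4
    have h4 : ((n + j).factorial : ℝ≥0∞)⁻¹ ≤ (n.factorial : ℝ≥0∞)⁻¹ * (j.factorial : ℝ≥0∞)⁻¹ := by
      rw [← ENNReal.mul_inv (Or.inl (by exact_mod_cast (Nat.factorial_ne_zero n)))
        (Or.inl (ENNReal.natCast_ne_top _))]
      exact ENNReal.inv_le_inv.2 h3
    calc ENNReal.ofReal (Real.exp (-a.toReal)) / ((n + j).factorial : ℝ≥0∞) * (a ^ n * a ^ j)
        = ENNReal.ofReal (Real.exp (-a.toReal)) * (a ^ n * a ^ j) *
            ((n + j).factorial : ℝ≥0∞)⁻¹ := by rw [div_eq_mul_inv]; ring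
      _ ≤ ENNReal.ofReal (Real.exp (-a.toReal)) * (a ^ n * a ^ j) *
            ((n.factorial : ℝ≥0∞)⁻¹ * (j.factorial : ℝ≥0∞)⁻¹) := by gcongr
      _ = _ := by rw [div_eq_mul_inv, div_eq_mul_inv]; ring
  refine (ENNReal.tsum_le_tsum h2).trans ?_
  rw [ENNReal.tsum_mul_left, ENNReal.tsum_mul_left, tsum_exp a ha,
    ← ENNReal.ofReal_mul (Real.exp_pos _).le, ← Real.exp_add]
  simp

end

theorem count (hRes : ResStatement) : CountStatement := by
  intro E _ _ ρ _ A hA
  set σ : Measure E := ρ.restrict A with hσ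
  have hσu : σ univ = ρ A := by rw [hσ, Measure.restrict_apply_univ]
  have hfin : IsFiniteMeasure σ := by rw [hσ]; infer_instance
  have hσt : σ univ ≠ ∞ := measure_ne_top _ _
  have hR := (hRes E ρ A hA).1
  -- transfer
  have key : ∀ Q : Set E → Prop, MeasurableSet {ω : Cfg E | Q (pt ω)} →
      MeasurableSet {ω : Cfg E | Q (pt ω ∩ A)} → PL ρ {ω | Q (pt ω ∩ A)} = PL σ {ω | Q (pt ω)} := by
    intro Q h1 h2
    rw [← lintegral_ind h2, ← lintegral_ind h1]
    exact hR (fun P => ind (Q P)) (measurable_ind h1)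
  have huniv : ∀ ω : Cfg E, pt ω ∩ univ = pt ω := fun ω => inter_univ _
  have hge : ∀ n : ℕ, MeasurableSet {ω : Cfg E | n ≤ (pt ω).ncard} := by
    intro n
    have := meas_ge (E := E) n MeasurableSet.univ
    simpa only [inter_univ] using this
  have heq : ∀ n : ℕ, MeasurableSet {ω : Cfg E | (pt ω).ncard = n} := by
    intro n
    have := meas_eq (E := E) n MeasurableSet.univ
    simpa only [inter_univ] using this
  have hempty : ∀ P : Set E, P.Finite → (P.ncard = 0 ↔ P = ∅) := fun P hP => Set.ncard_eq_zero hP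
  refine ⟨?_, ?_, ?_⟩
  · -- void probability
    have e1 : {ω : Cfg E | pt ω ∩ A = ∅} = {ω : Cfg E | (pt ω ∩ A).ncard = 0} := by
      ext ω
      exact (hempty _ ((pt_finite ω).inter_of_left A)).symm
    rw [e1, key (fun P => P.ncard = 0) (heq 0) (meas_eq 0 hA), PL_apply σ (heq 0),
      tsum_eq_single 0]
    · have h1 : {x : Fin 0 → E | (⟨0, x⟩ : Cfg E) ∈ {ω : Cfg E | (pt ω).ncard = 0}} = univ := by
        ext x
        simp [pt]
      rw [h1, pi_univ', wgh, hσu]
      simp
    · intro k hk
      have h1 : {x : Fin k → E | (⟨k, x⟩ : Cfg E) ∈ {ω : Cfg E | (pt ω).ncard = 0}} = ∅ := by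
        rw [eq_empty_iff_forall_notMem]
        intro x hx
        have hx' : (Set.range x).ncard = 0 := hx
        rw [Set.ncard_eq_zero (Set.finite_range x)] at hx'
        have : (⟨0, by omega⟩ : Fin k) = ⟨0, by omega⟩ := rfl
        have h2 : x ⟨0, by omega⟩ ∈ Set.range x := ⟨_, rfl⟩
        rw [hx'] at h2
        exact h2
      rw [h1, measure_empty, mul_zero]
  · -- tail
    intro n
    rw [key (fun P => n ≤ P.ncard) (hge n) (meas_ge n hA), PL_apply σ (hge n), ← hσu]
    refine le_trans (ENNReal.tsum_le_tsum fun k => ?_) (tail_bound (σ univ) hσt n)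
    split_ifs with hk
    · rw [← pi_univ' σ k]
      gcongr
      exact subset_univ _
    · have h1 : {x : Fin k → E | (⟨k, x⟩ : Cfg E) ∈ {ω : Cfg E | n ≤ (pt ω).ncard}} = ∅ := by
        rw [eq_empty_iff_forall_notMem]
        intro x hx
        have hx' : n ≤ (Set.range x).ncard := hx
        have h2 : (Set.range x).ncard ≤ k := by
          have := Set.ncard_image_le (f := x) (Set.toFinite (univ : Set (Fin k)))
          rw [image_univ, Set.ncard_univ, Nat.card_eq_fintype_card, Fintype.card_fin] at this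
          exact this
        omega
      rw [h1, measure_empty, mul_zero]
  · -- law
    intro hat n
    have hat' : NullSingletonClass σ := by
      constructor
      intro x
      exact le_antisymm ((Measure.restrict_apply_le _ _).trans (hat.measure_singleton x).le) bot_le
    rw [key (fun P => P.ncard = n) (heq n) (meas_eq n hA), PL_apply σ (heq n),
      tsum_eq_single n]
    · have h1 : (Measure.pi fun _ : Fin n => σ)
          {x : Fin n → E | (⟨n, x⟩ : Cfg E) ∈ {ω : Cfg E | (pt ω).ncard = n}} = (σ univ) ^ n := by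
        rw [← pi_univ' σ n]
        apply le_antisymm (measure_mono (subset_univ _))
        have h2 : (univ : Set (Fin n → E)) ⊆
            {x : Fin n → E | (⟨n, x⟩ : Cfg E) ∈ {ω : Cfg E | (pt ω).ncard = n}} ∪
              {x | ¬ Function.Injective x} := by
          intro x _
          by_cases hx : Function.Injective x
          · left
            change (Set.range x).ncard = n
            rw [Set.ncard_range_of_injective hx, Nat.card_eq_fintype_card, Fintype.card_fin]
          · right; exact hx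
        refine (measure_mono h2).trans ((measure_union_le _ _).trans ?_)
        rw [null_inj σ n, add_zero]
      rw [h1, wgh, hσu, div_eq_mul_inv, div_eq_mul_inv]
      ring
    · intro k hk
      have h1 : (Measure.pi fun _ : Fin k => σ)
          {x : Fin k → E | (⟨k, x⟩ : Cfg E) ∈ {ω : Cfg E | (pt ω).ncard = n}} = 0 := by
        refine measure_mono_null ?_ (null_inj σ k)
        intro x hx hinj
        have hx' : (Set.range x).ncard = n := hx
        rw [Set.ncard_range_of_injective hinj, Nat.card_eq_fintype_card, Fintype.card_fin] at hx'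
        exact hk hx'
      rw [h1, mul_zero]

end Pool.Agent.Lib.MP_5349a4_pr.H7
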